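import Pool.Agent.Helper93.WC.St
import Pool.Agent.Helper62.Weber.Alg

/-!
# WC MODULE QUO
-/

set_option autoImplicit false

open Polynomial Helper62.Weber Pool.Agent.Helper93.WC

noncomputable section

namespace Pool.Agent.Helper18.WCQUO

/-- the ideal of the quotient ring -/
def II (l n : ℕ) : Ideal ℤ[X] := Ideal.span {C ((l : ℤ) ^ 2), X ^ 2 ^ (n + 1) + 1}

/-- `expand` as a ring homomorphism -/
def ex' (k : ℕ) : ℤ[X] →+* ℤ[X] := (expand ℤ k : ℤ[X] →ₐ[ℤ] ℤ[X]).toRingHom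

theorem ex'_apply (k : ℕ) (f : ℤ[X]) : ex' k f = expand ℤ k f := rfl

theorem pres (l n k : ℕ) (hk : Odd k) : II l n ≤ (II l n).comap (ex' k) := by
  have h0 : II l n = Ideal.span {C ((l : ℤ) ^ 2), X ^ 2 ^ (n + 1) + 1} := rfl
  rw [h0, Ideal.span_le, ← h0]
  rintro x (rfl | rfl)
  · show ex' k (C ((l : ℤ) ^ 2)) ∈ II l n
    rw [ex'_apply, expand_C]
    exact Ideal.subset_span (by simp)
  · show ex' k (X ^ 2 ^ (n + 1) + 1) ∈ II l n
    rw [ex'_apply, map_add, map_pow, expand_X, map_one]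
    have h1 : (X ^ 2 ^ (n + 1) + 1 : ℤ[X]) ∣ (X ^ 2 ^ (n + 1)) ^ k + 1 ^ k :=
      hk.add_dvd_pow_add_pow _ _
    rw [one_pow, ← pow_mul, mul_comm (2 ^ (n + 1)) k, pow_mul] at h1
    exact Ideal.mem_of_dvd _ h1 (Ideal.subset_span (by simp))

/-- the map on the quotient -/
def qm (l n k : ℕ) (hk : Odd k) : (ℤ[X] ⧸ II l n) →+* (ℤ[X] ⧸ II l n) :=
  Ideal.quotientMap (II l n) (ex' k) (pres l n k hk)

theorem qm_mk (l n k : ℕ) (hk : Odd k) (f : ℤ[X]) :
    qm l n k hk (Ideal.Quotient.mk (II l n) f) = Ideal.Quotient.mk (II l n) (expand ℤ k f) :=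
  Ideal.quotientMap_mk

theorem map_sT {S T : Type*} [CommRing S] [CommRing T] (φ : S →+* T) (l : ℕ) (y : S) :
    φ (sT l y) = sT l (φ y) := by
  simp [sT, map_sum]

theorem map_gT {S T : Type*} [CommRing S] [CommRing T] (φ : S →+* T) (l r : ℕ) (y : S) :
    φ (gT l r y) = gT l r (φ y) := by
  simp [gT, map_sT, map_sum]

theorem aux (S : Type) [CommRing S] (l m : ℕ) (h : l ^ 2 = 2 * m + 1) :
    (l : S) ^ 2 = 2 * (m : S) + 1 := by
  have h4 : ((l ^ 2 : ℕ) : S) = ((2 * m + 1 : ℕ) : S) := by rw [h]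
  push_cast at h4
  exact h4

theorem cQUO : QUO := by
  intro hISU hFER hCHI l n r hl hodd hn hr K a E hE hdiv P hP F _ _ z hz
  have : Fact l.Prime := ⟨hl⟩
  set S := ℤ[X] ⧸ II l n with hS
  set π : ℤ[X] →+* S := Ideal.Quotient.mk (II l n) with hπ
  have hl2 : ((l : S)) ^ 2 = 0 := by
    have h1 : π (C ((l : ℤ) ^ 2)) = 0 :=
      Ideal.Quotient.eq_zero_iff_mem.2 (Ideal.subset_span (by simp))
    rw [← h1]
    simp
  have hzz : (π X) ^ 2 ^ (n + 1) = -1 := by
    have h1 : π (X ^ 2 ^ (n + 1) + 1) = 0 :=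
      Ideal.Quotient.eq_zero_iff_mem.2 (Ideal.subset_span (by simp))
    rw [map_add, map_pow, map_one] at h1
    linear_combination h1
  have h2 : IsUnit (2 : S) := by
    obtain ⟨m, hm⟩ := hodd.pow (n := 2)
    have h3 : ((l : S)) ^ 2 = 2 * (m : S) + 1 := by
      exact aux S l m hm
    rw [hl2] at h3
    exact IsUnit.of_mul_eq_one (-(m : S)) (by linear_combination h3)
  have hcomm : ∀ x : S, qm l n l hodd (qm l n 3 (by decide) x) =
      qm l n 3 (by decide) (qm l n l hodd x) := by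
    intro x
    obtain ⟨f, rfl⟩ := Ideal.Quotient.mk_surjective x
    rw [qm_mk, qm_mk, qm_mk, qm_mk, expand_expand, expand_expand, mul_comm]
  have hfr : ∀ x : S, ∃ w : S, qm l n l hodd x = x ^ l + (l : S) * w := by
    intro x
    obtain ⟨f, rfl⟩ := Ideal.Quotient.mk_surjective x
    obtain ⟨g, hg⟩ := frob l f
    refine ⟨π (-g), ?_⟩
    have h3 : expand ℤ l f = f ^ l + C (l : ℤ) * (-g) := by rw [hg]; ring
    rw [qm_mk, h3]
    simp only [hπ, map_add, map_mul, map_pow, map_neg]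
    congr 2
  have hψ : qm l n l hodd (π X) = (π X) ^ l := by
    rw [hπ, qm_mk, expand_X, map_pow]
  have hσ : qm l n 3 (by decide) (π X) = (π X) ^ 3 := by
    rw [hπ, qm_mk, expand_X, map_pow]
  have hyp : (π P) ^ l * ∏ k, (((π X) ^ E k) ^ 2 - (π X) ^ E k + 1) ^ a k =
      ∏ k, (((π X) ^ E k) ^ 2 + (π X) ^ E k + 1) ^ a k := by
    obtain ⟨Q, hQ⟩ := hP
    have h3 := congrArg π hQ
    rw [map_mul, map_add, map_pow, map_one, hzz, map_sub, map_mul, map_pow, map_prod,
      map_prod] at h3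
    have h4 : ∀ k, π ((X ^ (2 * E k) - X ^ E k + 1) ^ a k) =
        (((π X) ^ E k) ^ 2 - (π X) ^ E k + 1) ^ a k := by
      intro k
      rw [map_pow, map_add, map_sub, map_pow, map_pow, map_one, mul_comm, pow_mul]
    have h5 : ∀ k, π ((X ^ (2 * E k) + X ^ E k + 1) ^ a k) =
        (((π X) ^ E k) ^ 2 + (π X) ^ E k + 1) ^ a k := by
      intro k
      rw [map_pow, map_add, map_add, map_pow, map_pow, map_one, mul_comm, pow_mul]
    simp only [h4, h5] at h3
    linear_combination h3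
  have hC := hCHI S l n hl hodd hn hl2 h2 (π X) hzz (qm l n l hodd) (qm l n 3 (by decide)) hψ hσ
    hcomm hfr K a E (π P) hE hyp
  have hone : (π X) ^ 2 ^ (n + 2) = 1 := by
    rw [show n + 2 = (n + 1) + 1 from rfl, pow_succ 2 (n + 1), pow_mul, hzz]
    norm_num
  have hF := hFER S l r hl hodd hr hl2 K a (fun k => (π X) ^ E k) ((π X) ^ (l * 2 ^ r))
    (fun k => by
      rw [← pow_mul]
      exact (hISU S n (E k * l) (π X) hzz h2 ((hE k).mul hodd)).1)
    (fun k => by
      rw [← pow_mul]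
      exact (hISU S n (E k * l) (π X) hzz h2 ((hE k).mul hodd)).2)
    (fun k => by
      obtain ⟨q, hq⟩ := hdiv k
      have hk1 : 1 ≤ E k := (hE k).pos
      have h6 : E k * (l * 2 ^ r) = l * 2 ^ r + 2 ^ (n + 2) * (q * l) := by
        have h7 : E k = 1 + (E k - 1) := by omega
        calc E k * (l * 2 ^ r) = (1 + (E k - 1)) * (l * 2 ^ r) := by rw [← h7]
          _ = l * 2 ^ r + ((E k - 1) * 2 ^ r) * l := by ring
          _ = _ := by rw [hq]; ring
      show ((π X) ^ E k) ^ (l * 2 ^ r) = _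
      rw [← pow_mul, h6, pow_add, pow_mul _ (2 ^ (n + 2)), hone, one_pow, mul_one])
    hC
  -- the polynomial
  set T : ℤ[X] := ∑ k, (a k : ℤ[X]) * gT l r (X ^ E k) with hT
  have hmem : C (l : ℤ) * T ∈ II l n := by
    rw [← Ideal.Quotient.eq_zero_iff_mem]
    have : π (C (l : ℤ) * T) = (l : S) * ∑ k, (a k : S) * gT l r ((π X) ^ E k) := by
      have hCl : π (C (l : ℤ)) = (l : S) := by simp
      rw [map_mul, hT, map_sum, hCl]
      congr 1
      refine Finset.sum_congr rfl fun k _ => ?_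
      rw [map_mul, map_gT, map_pow, map_natCast]
    exact this.trans hF
  obtain ⟨A, B, hAB⟩ := Ideal.mem_span_pair.1 hmem
  have hl0 : (C (l : ℤ) : ℤ[X]) ≠ 0 := by
    rw [Ne, C_eq_zero]
    exact_mod_cast hl.ne_zero
  have hB : C (l : ℤ) ∣ B := by
    have h7 := congrArg (Polynomial.map (Int.castRingHom (ZMod l))) hAB
    have h8 : Polynomial.map (Int.castRingHom (ZMod l)) (C (l : ℤ)) = 0 := by
      rw [map_C]
      simp
    have h9 : Polynomial.map (Int.castRingHom (ZMod l)) (C ((l : ℤ) ^ 2)) = 0 := by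
      rw [map_C]
      simp
    rw [Polynomial.map_add, Polynomial.map_mul, Polynomial.map_mul, Polynomial.map_mul, h8, h9,
      mul_zero, zero_add, zero_mul] at h7
    have h10 : Polynomial.map (Int.castRingHom (ZMod l)) (X ^ 2 ^ (n + 1) + 1) ≠ 0 := by
      have : (X ^ 2 ^ (n + 1) + 1 : ℤ[X]).Monic := monic_X_pow_add_C 1 (by positivity)
      exact (this.map _).ne_zero
    have h11 := (mul_eq_zero.1 h7).resolve_right h10
    rw [C_dvd_iff_dvd_coeff]
    intro i
    have h12 := congrArg (fun p => p.coeff i) h11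
    simp only [coeff_map, coeff_zero] at h12
    rwa [eq_intCast, ZMod.intCast_zmod_eq_zero_iff_dvd] at h12
  obtain ⟨B', rfl⟩ := hB
  have hTT : T = A * C (l : ℤ) + B' * (X ^ 2 ^ (n + 1) + 1) := by
    apply mul_left_cancel₀ hl0
    rw [← hAB, C_pow]
    ring
  have hev := congrArg (eval₂ (Int.castRingHom F) z) hTT
  have h13 : eval₂ (Int.castRingHom F) z T = ∑ k, (a k : F) * gT l r (z ^ E k) := by
    show eval₂RingHom (Int.castRingHom F) z T = _
    rw [hT, map_sum]
    refine Finset.sum_congr rfl fun k _ => ?_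
    rw [map_mul, map_gT, map_pow, map_natCast]
    simp
  rw [← h13, hev, eval₂_add, eval₂_mul, eval₂_mul, eval₂_C, eval₂_add, eval₂_pow, eval₂_X,
    eval₂_one, hz]
  simp

end Pool.Agent.Helper18.WCQUO

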